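import Pool.Agent.Y33.RN.Wl
import Pool.Agent.Y33.RN.Stm
import Pool.Agent.Y186.SM.Chf
import Pool.Agent.TH54.BU.ConeA
import Pool.Agent.TH54.BU.FamLS

set_option autoImplicit false

/-! # Project RN (helper33), job HCAP (helper697): the relators which capture an element of the
kernel -/

namespace Pool.Agent.Y697.RN.Hcap

open Pool.Agent.TH54.BU hiding wl
open Pool.Agent.Y33.SM Pool.Agent.Y33.RN Pool.Agent.Y186.SM
open Pool.Agent.Y186.SM.Chf (Vx_even Vx_odd)

variable {G : Type} [Group G]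

theorem nc_tb {w : GH G} {f : G →* Multiplicative ℤ} {S : Set G} {t c b : G}
    (rd : Rd w f S t c b) : NC t b := by
  intro g p q hp h
  have hb : f b = 1 := (rd.ker b).2 (Subgroup.subset_closure rd.bS)
  have h1 := congrArg f h
  rw [map_mul, map_mul, map_inv, map_zpow, map_zpow, hb, one_zpow, mul_one, mul_inv_cancel,
    rd.ft] at h1
  have h2 : q = 0 := by
    have := congrArg Multiplicative.toAdd h1
    rw [toAdd_one, toAdd_zpow, toAdd_ofAdd, smul_eq_mul, mul_one] at this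
    exact this.symm
  rw [h2, zpow_zero] at h
  have h3 : b ^ p = 1 := by
    calc b ^ p = g⁻¹ * (g * b ^ p * g⁻¹) * g := by group
      _ = 1 := by rw [h]; group
  have h4 := str_z rd.sb p
  rw [h3, w.len_one] at h4
  omega

theorem exists_N {w : GH G} {c b : G} (sc : Str w c) (sb : Str w b) {C0 K : ℕ} (hK : 4 ≤ K)
    {u : G} (hu : w.len u ≤ K) {j : ℕ} (hj : j ≤ 3)
    (h : ∀ N : ℕ, w.len u + N ≤ w.len (u * c ^ j * b ^ N) + C0) :
    ∃ N : ℕ, w.len (u * c ^ j * b ^ N) = 2 * K ∧ K ≤ N + 3 ∧ N ≤ 2 * K + C0 := by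
  classical
  have hex : ∃ N, 2 * K ≤ w.len (u * c ^ j * b ^ N) :=
    ⟨2 * K + C0, by have := h (2 * K + C0); omega⟩
  obtain ⟨N, hN, hmin⟩ : ∃ N, 2 * K ≤ w.len (u * c ^ j * b ^ N) ∧
      ∀ m < N, ¬ (2 * K ≤ w.len (u * c ^ j * b ^ m)) :=
    ⟨Nat.find hex, Nat.find_spec hex, fun m hm => Nat.find_min hex hm⟩
  have hc := sc j
  have l1 := w.len_mul u (c ^ j)
  have l2 := w.len_mul (u * c ^ j) (b ^ N)
  have l3 := sb N
  have hle : w.len (u * c ^ j * b ^ N) ≤ 2 * K := by
    rcases Nat.eq_zero_or_pos N with h0 | h0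
    · subst h0
      rw [pow_zero, mul_one]
      omega
    · obtain ⟨m, rfl⟩ : ∃ m, N = m + 1 := ⟨N - 1, by omega⟩
      have h1 := hmin m (by omega)
      have h2 := w.len_mul (u * c ^ j * b ^ m) b
      have h3 := sb 1
      rw [pow_one] at h3
      rw [pow_succ, ← mul_assoc]
      omega
  have h4 := h N
  exact ⟨N, by omega, by omega, by omega⟩

theorem proj_u {w : GH G} {f : G →* Multiplicative ℤ} {S : Set G} {t c b : G}
    (rd : Rd w f S t c b) {k : G → ℤ} {q1 B2 : ℕ}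
    (hB : ∀ (σ : ℕ → G) (L : ℕ),
      (∀ i, i < L → w.d (σ i) (σ (i + 1)) ≤ 1 ∧ f (σ (i + 1)) = f (σ i)) →
        q1 * (k (σ 0) - k (σ L)).natAbs ≤ L + B2)
    {u : G} (hu : u ∈ Subgroup.closure S) (g : G) :
    q1 * (k g - k (g * u)).natAbs ≤ wl S u + B2 := by
  obtain ⟨l, h1, h2, h3⟩ := exists_min rd.inv hu
  have h4 := hB (fun i => g * (l.take i).prod) l.length (by
    intro i hi
    have e1 : (l.take (i + 1)).prod = (l.take i).prod * l[i] := List.prod_take_succ l i hi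
    have hs : l[i] ∈ S := h1 _ (List.getElem_mem hi)
    have hf : f l[i] = 1 := (rd.ker _).2 (Subgroup.subset_closure hs)
    simp only [e1]
    refine ⟨?_, ?_⟩
    · have : w.d (g * (l.take i).prod) (g * ((l.take i).prod * l[i])) = w.len l[i] := by
        unfold GH.d
        congr 1
        group
      rw [this]
      exact rd.one _ hs
    · rw [← mul_assoc, map_mul, hf, mul_one])
  simp only [List.take_zero, List.prod_nil, mul_one, List.take_length, h2] at h4
  rwa [h3] at h4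

theorem t (hA : S_ACY) (hcrn : S_CRN) (hz : S_ZIG) (hp : S_CPR) (hc : S_CCM) (hf : S_CHF2)
    (hh : S_HPR) : S_HCAP := by
  intro G _ w f S t c b e k rd pj
  have nc := nc_tb rd
  obtain ⟨C0, z0⟩ := hcrn G w c b rd.nw rd.sc rd.sb rd.nc
  obtain ⟨C1, κ1, z1⟩ := hz G w c b rd.nw rd.sc rd.sb rd.nc
  obtain ⟨κ2, z2⟩ := hp G w c b rd.nw rd.sc rd.sb rd.nc C1
  obtain ⟨E, κ3, z3⟩ := hc G w c b rd.nw rd.sc rd.sb C1
  obtain ⟨B1, z4⟩ := hf G w t c b e k rd.nw rd.st rd.sc rd.sb nc pj C1 E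
  obtain ⟨O, hO⟩ := exists_Ow hA w rd.nw rd.st rd.sb nc pj
  refine ⟨C0 + 2 * C1 + 12, ?_⟩
  intro q hq
  obtain ⟨B2, z5⟩ := hh G w t e k f pj rd.ft rd.lip (10 ^ 4 * q)
  refine ⟨κ1 + κ2 + κ3 + C0 + E + B2 + 1000 * (q * B1) + 2000 * (q * (3 + e + O)) + 100, ?_⟩
  intro K hK u hu hwu
  have hqB : B1 ≤ q * B1 := Nat.le_mul_of_pos_left _ hq
  have hlu : w.len u ≤ K := (len_le_wl w rd.inv rd.one hu).trans hwu.le
  -- the corner
  obtain ⟨j0, _, _, _, hj1, hj3, _, _, _, _, hcr⟩ := z0 u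
  obtain ⟨N, hN, hN1, hN2⟩ := exists_N rd.sc rd.sb (show 4 ≤ K by omega) hlu hj3
    (fun N => (hcr N).1)
  have hN0 := (hcr N).1
  obtain ⟨u', hu'⟩ : ∃ u', u' = u * c ^ j0 * b ^ N := ⟨_, rfl⟩
  rw [← hu'] at hN hN0
  -- the relator
  obtain ⟨x0, zig⟩ := z1 (2 * K) (by omega) u' hN
  have hpr := z2 (2 * K) (by omega) u' x0 zig
  obtain ⟨γ, g0, g1, g2⟩ := w.exists_geod 1 u'
  rw [w.d_one, hN] at g1 g2
  have gu : (γ 0)⁻¹ * γ (2 * K) = u' := by
    rw [g0, g1]
    group
  have zig' : Zig w c b C1 (2 * K) ((γ 0)⁻¹ * γ (2 * K)) x0 := by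
    rw [gu]
    exact zig
  obtain ⟨x, v, e1, cm, lo, hi, _, nr⟩ := z3 (2 * K) (by omega) γ g2 x0 zig'
  rw [gu] at nr
  have hx : Prim x := by
    have := Fls.prim_conj v⁻¹ hpr
    rwa [e1, show v⁻¹ * (v * x * v⁻¹) * v⁻¹⁻¹ = x by group] at this
  obtain ⟨j, j', hj4, hj5, hj6, hj7, hx0, _⟩ := zig.ex
  have hcl := rd.sc
  have hbl := rd.sb
  -- lengths
  have L1 := zig.len
  have L2 := zig.btw 0 1 2 (by norm_num) (by norm_num)
  have v0 : Vx u' x0 0 = 1 := by
    have := Vx_even u' x0 0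
    simpa using this
  have v1 : Vx u' x0 1 = u' := by
    have := Vx_odd u' x0 0
    simpa using this
  have v2 : Vx u' x0 2 = x0 := by
    have := Vx_even u' x0 1
    simpa using this
  rw [v0, v1, v2, w.d_one, w.d_one] at L2
  have e2 : w.d u' x0 = w.len (u'⁻¹ * x0) := rfl
  rw [e2] at L2
  have L3 : w.len x0 ≤ w.len u + w.len (u⁻¹ * x0) := by
    have := w.len_mul u (u⁻¹ * x0)
    rwa [mul_inv_cancel_left] at this
  have e3 : u⁻¹ * x0 = c ^ j0 * b ^ N * c ^ j * b ^ (2 * (2 * K)) * c ^ j' := by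
    rw [hx0, hu']
    group
  have cS : c ∈ Subgroup.closure S := Subgroup.subset_closure rd.cS
  have bS : b ∈ Subgroup.closure S := Subgroup.subset_closure rd.bS
  have hcm : ∀ n : ℕ, c ^ n ∈ Subgroup.closure S := fun n => Subgroup.pow_mem _ cS n
  have hbm : ∀ n : ℕ, b ^ n ∈ Subgroup.closure S := fun n => Subgroup.pow_mem _ bS n
  have wpow : ∀ s ∈ S, ∀ n : ℕ, wl S (s ^ n) ≤ n := by
    intro s hs n
    have := wl_le (S := S) (l := List.replicate n s) (by
      intro s' hs'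
      rw [List.eq_of_mem_replicate hs']
      exact hs)
    rwa [List.prod_replicate, List.length_replicate] at this
  have hmem : u⁻¹ * x0 ∈ Subgroup.closure S := by
    rw [e3]
    exact Subgroup.mul_mem _ (Subgroup.mul_mem _ (Subgroup.mul_mem _ (Subgroup.mul_mem _ (hcm _)
      (hbm _)) (hcm _)) (hbm _)) (hcm _)
  have hmx : x0 ∈ Subgroup.closure S := by
    have := Subgroup.mul_mem _ hu hmem
    rwa [mul_inv_cancel_left] at this
  have L4 : wl S (u⁻¹ * x0) ≤ N + 4 * K + 9 := by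
    rw [e3]
    have m1 := wl_mul rd.inv (hcm j0) (hbm N)
    have m2 := wl_mul rd.inv (Subgroup.mul_mem _ (hcm j0) (hbm N)) (hcm j)
    have m3 := wl_mul rd.inv (Subgroup.mul_mem _ (Subgroup.mul_mem _ (hcm j0) (hbm N)) (hcm j))
      (hbm (2 * (2 * K)))
    have m4 := wl_mul rd.inv (Subgroup.mul_mem _ (Subgroup.mul_mem _ (Subgroup.mul_mem _
      (hcm j0) (hbm N)) (hcm j)) (hbm (2 * (2 * K)))) (hcm j')
    have n1 := wpow c rd.cS j0
    have n2 := wpow c rd.cS j
    have n3 := wpow c rd.cS j'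
    have n4 := wpow b rd.bS N
    have n5 := wpow b rd.bS (2 * (2 * K))
    omega
  have L5 : w.len (u⁻¹ * x0) ≤ wl S (u⁻¹ * x0) := len_le_wl w rd.inv rd.one hmem
  -- the conjugator
  obtain ⟨a, ha⟩ := nr 0
  rw [zpow_zero, mul_one] at ha
  have L6 : w.len (u'⁻¹ * x0) ≤ 4 * K + 6 := by
    have e4 : u'⁻¹ * x0 = c ^ j * b ^ (2 * (2 * K)) * c ^ j' := by
      rw [hx0]
      group
    rw [e4]
    have m1 := w.len_mul (c ^ j) (b ^ (2 * (2 * K)))
    have m2 := w.len_mul (c ^ j * b ^ (2 * (2 * K))) (c ^ j')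
    have n1 := hcl j
    have n2 := hcl j'
    have n3 := hbl (2 * (2 * K))
    omega
  obtain ⟨i, hi'⟩ : ∃ i : ℤ, w.d (x0 ^ i) v ≤ 20 * K := by
    rcases Int.even_or_odd' a with ⟨i, rfl | rfl⟩
    · refine ⟨i, ?_⟩
      rw [Vx_even, Vx_odd] at ha
      have : w.d (x0 ^ i) (x0 ^ i * u') = w.len u' := by
        unfold GH.d
        congr 1
        group
      omega
    · refine ⟨i, ?_⟩
      rw [show (2 * i + 1 + 1 : ℤ) = 2 * (i + 1) by ring, Vx_even, Vx_odd] at ha
      have s1 : w.d (x0 ^ i) (x0 ^ i * u') = w.len u' := by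
        unfold GH.d
        congr 1
        group
      have s2 : w.d (x0 ^ i * u') (x0 ^ (i + 1)) = w.len (u'⁻¹ * x0) := by
        unfold GH.d
        congr 1
        rw [zpow_add_one]
        group
      have s3 := w.d_tri (x0 ^ i) (x0 ^ i * u') v
      omega
  refine ⟨x0, x, (x0 ^ i)⁻¹ * v, ?_, ?_, hx, cm, lo, by omega, ?_, ?_⟩
  · calc x0 = (x0 ^ i)⁻¹ * x0 * x0 ^ i := by group
      _ = (x0 ^ i)⁻¹ * (v * x * v⁻¹) * x0 ^ i := by rw [← e1]
      _ = (x0 ^ i)⁻¹ * v * x * ((x0 ^ i)⁻¹ * v)⁻¹ := by group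
  · exact hi'
  · -- small projections
    obtain ⟨A, hAd⟩ : ∃ A, A = K / (1000 * q) := ⟨_, rfl⟩
    have hq0 : 0 < 1000 * q := by omega
    have hA1 : A * (1000 * q) ≤ K := by
      rw [hAd]
      exact Nat.div_mul_le_self _ _
    have hA2 : B1 ≤ A := by
      rw [hAd, Nat.le_div_iff_mul_le hq0]
      have : B1 * (1000 * q) = 1000 * (q * B1) := by ring
      omega
    have hA3 : A ≤ A * q := Nat.le_mul_of_pos_right _ hq
    have hA4 : A * (1000 * q) = 1000 * (A * q) := by ring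
    have hHF := z4 (2 * K) A hA2 (by omega) u' x0 zig (by
      intro g
      have p1 := proj_u rd z5 hu g
      rw [hwu] at p1
      have p2 := k_lip pj (g * u) (g * u * c ^ j0)
      have p3 : w.d (g * u) (g * u * c ^ j0) = j0 := by
        have : w.d (g * u) (g * u * c ^ j0) = w.len (c ^ j0) := by
          unfold GH.d
          congr 1
          group
        rw [this, hcl]
      have p4 := hO (g * u * c ^ j0) 0 (N : ℤ)
      rw [zpow_zero, mul_one, zpow_natCast] at p4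
      have p5 : g * u * c ^ j0 * b ^ N = g * u' := by
        rw [hu']
        group
      rw [p5] at p4
      have p6 : (k g - k (g * u')).natAbs ≤ (k g - k (g * u)).natAbs + (3 + e + O) := by
        omega
      refine p6.trans ?_
      rw [hAd, Nat.le_div_iff_mul_le hq0]
      have p7 : ((k g - k (g * u)).natAbs + (3 + e + O)) * (1000 * q) * 10 =
          10 ^ 4 * q * (k g - k (g * u)).natAbs + 10000 * (q * (3 + e + O)) := by ring
      omega) x v e1 nr
    intro g p r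
    refine (hHF g p r).trans ?_
    rw [Nat.le_div_iff_mul_le (by omega)]
    have : 10 * A * q = 10 * (A * q) := by ring
    omega
  · exact
      { mu := hu
        mx := hmx
        hK := hwu
        a1 := by omega
        a2 := by omega
        a3 := by omega
        a4 := by omega
        sup := by
          intro a b
          have h1 := zig.btw (2 * (0 : ℤ)) (2 * (a : ℤ)) (2 * ((a + b : ℕ) : ℤ)) (by omega)
            (by push_cast; omega)
          rw [Vx_even, Vx_even, Vx_even, zpow_zero, w.d_one, w.d_one, zpow_natCast,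
            zpow_natCast] at h1
          have h2 : w.d (x0 ^ a) (x0 ^ (a + b)) = w.len (x0 ^ b) := by
            unfold GH.d
            congr 1
            rw [pow_add, inv_mul_cancel_left]
          rw [h2] at h1
          omega }

end Pool.Agent.Y697.RN.Hcap
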